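import Mathlib

/-!
# A topologically mixing subshift over `ℤ` that is not surjunctive

Three kinds of particles live on `ℤ`: `a` (which stands still), `b` (which moves one step to the
right per unit of time) and `c` (which moves one step to the left). The subshift `X` forbids a
`b`, an `a` and a `c`, in this order from left to right, with the `a` exactly in the middle.
-/

namespace Pool.Agent.Results.MP_451208_an.MixingNotSurjunctive

open Set Topology

/-- The shift map on `A^ℤ`: `σ(x)_n = x_{n+1}`. -/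
def shift {A : Type} (x : ℤ → A) : ℤ → A := fun n => x (n + 1)

/-- A subshift over `ℤ`: a closed set `X ⊆ A^ℤ` (product topology) with `σ(X) = X`. -/
def IsSubshift {A : Type} [TopologicalSpace A] (X : Set (ℤ → A)) : Prop :=
  IsClosed X ∧ shift '' X = X

/-- `X` is topologically mixing: for all relatively open nonempty `U ∩ X`, `V ∩ X` there is `N`
such that `σ^n (U ∩ X)` meets `V ∩ X` for all `n ≥ N`. -/
def IsTopMixing {A : Type} [TopologicalSpace A] (X : Set (ℤ → A)) : Prop :=
  ∀ U V : Set (ℤ → A), IsOpen U → IsOpen V → (U ∩ X).Nonempty → (V ∩ X).Nonempty →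
    ∃ N : ℕ, ∀ n : ℕ, N ≤ n → ((shift^[n] '' (U ∩ X)) ∩ (V ∩ X)).Nonempty

/-- A cellular automaton on `X`: a continuous map `τ : X → X` commuting with the shift. -/
def IsCellularAutomaton {A : Type} [TopologicalSpace A] (X : Set (ℤ → A)) (τ : X → X) : Prop :=
  Continuous τ ∧ ∀ x y : X, (y : ℤ → A) = shift (x : ℤ → A) →
    ((τ y : X) : ℤ → A) = shift ((τ x : X) : ℤ → A)

/-- `X` is surjunctive: every injective cellular automaton on `X` is surjective. -/
def IsSurjunctive {A : Type} [TopologicalSpace A] (X : Set (ℤ → A)) : Prop :=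
  ∀ τ : X → X, IsCellularAutomaton X τ → Function.Injective τ → Function.Surjective τ

/-! ### The example -/

/-- The alphabet: presence or absence of each of the three kinds of particles. -/
abbrev Alph : Type := Bool × Bool × Bool

/-- The subshift. -/
def Xs : Set (ℤ → Alph) :=
  {x | ∀ n m : ℤ, 1 ≤ m → ¬ ((x (n - m)).2.1 = true ∧ (x n).1 = true ∧ (x (n + m)).2.2 = true)}

/-- The cellular automaton on the full shift. -/
def T (x : ℤ → Alph) : ℤ → Alph := fun n => ((x n).1, (x (n - 1)).2.1, (x (n + 1)).2.2)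

lemma T_mem {x : ℤ → Alph} (hx : x ∈ Xs) : T x ∈ Xs := by
  intro n m hm h
  apply hx n (m + 1) (by omega)
  simp only [T] at h
  refine ⟨?_, h.2.1, ?_⟩
  · have := h.1
    rwa [show n - m - 1 = n - (m + 1) by ring] at this
  · have := h.2.2
    rwa [show n + m + 1 = n + (m + 1) by ring] at this

lemma T_continuous : Continuous T := by
  refine continuous_pi fun n => ?_
  unfold T
  fun_prop

lemma T_inj : Function.Injective T := by
  intro x y h
  funext n
  have h1 := congrFun h n
  have h2 := congrFun h (n + 1)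
  have h3 := congrFun h (n - 1)
  simp only [T, Prod.mk.injEq, add_sub_cancel_right, sub_add_cancel] at h1 h2 h3
  exact Prod.ext h1.1 (Prod.ext h2.2.1 h3.2.2)

lemma T_shift (x : ℤ → Alph) : T (shift x) = shift (T x) := by
  funext n
  simp only [T, shift]
  rw [show n - 1 + 1 = n + 1 - 1 by ring]

lemma Xs_closed : IsClosed Xs := by
  have : Xs = ⋂ n : ℤ, ⋂ m : ℤ, {x : ℤ → Alph | 1 ≤ m →
      ¬ ((x (n - m)).2.1 = true ∧ (x n).1 = true ∧ (x (n + m)).2.2 = true)} := by
    ext x; simp [Xs]
  rw [this]
  refine isClosed_iInter fun n => isClosed_iInter fun m => ?_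
  have hc : Continuous fun x : ℤ → Alph => (x (n - m), x n, x (n + m)) := by fun_prop
  exact (isClosed_discrete {p : Alph × Alph × Alph | 1 ≤ m →
      ¬ (p.1.2.1 = true ∧ p.2.1.1 = true ∧ p.2.2.2.2 = true)}).preimage hc

lemma shift_mem_iff (x : ℤ → Alph) : shift x ∈ Xs ↔ x ∈ Xs := by
  constructor
  · intro h n m hm
    have := h (n - 1) m hm
    simpa [shift, show n - 1 - m + 1 = n - m by ring, show n - 1 + m + 1 = n + m by ring]
      using this
  · intro h n m hm
    have := h (n + 1) m hm
    simpa [shift, show n - m + 1 = n + 1 - m by ring, show n + m + 1 = n + 1 + m by ring]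
      using this

lemma Xs_subshift : IsSubshift Xs := by
  refine ⟨Xs_closed, ?_⟩
  apply Set.Subset.antisymm
  · rintro _ ⟨x, hx, rfl⟩
    exact (shift_mem_iff x).2 hx
  · intro x hx
    have e : shift (fun n => x (n - 1)) = x := by
      funext n; simp [shift]
    refine ⟨fun n => x (n - 1), ?_, e⟩
    rw [← shift_mem_iff, e]
    exact hx

lemma shift_iter {A : Type} (n : ℕ) (x : ℤ → A) : shift^[n] x = fun k => x (k + n) := by
  induction n with
  | zero => simp
  | succ n ih =>
    rw [Function.iterate_succ', Function.comp_apply, ih]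
    funext k
    simp only [shift]
    congr 1
    push_cast
    ring

/-- An open set containing `x` contains all configurations agreeing with `x` on a large
interval. -/
lemma exists_window {A : Type} [TopologicalSpace A] (U : Set (ℤ → A)) (hU : IsOpen U)
    (x : ℤ → A) (hx : x ∈ U) :
    ∃ L : ℕ, ∀ z : ℤ → A, (∀ k : ℤ, |k| ≤ L → z k = x k) → z ∈ U := by
  obtain ⟨I, u, h1, h2⟩ := isOpen_pi_iff.1 hU x hx
  refine ⟨I.sup fun k => k.natAbs, fun z hz => h2 ?_⟩
  intro k hk
  have : z k = x k := by
    apply hz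
    have : k.natAbs ≤ I.sup fun k : ℤ => k.natAbs :=
      Finset.le_sup (f := fun k : ℤ => k.natAbs) (Finset.mem_coe.1 hk)
    rw [Int.abs_eq_natAbs]
    exact_mod_cast this
  rw [this]
  exact (h1 k (Finset.mem_coe.1 hk)).2

lemma iter_mem (n : ℕ) {z : ℤ → Alph} (hz : z ∈ Xs) : shift^[n] z ∈ Xs := by
  induction n with
  | zero => simpa using hz
  | succ n ih =>
    rw [Function.iterate_succ', Function.comp_apply]
    exact (shift_mem_iff _).2 ih

lemma Xs_mixing : IsTopMixing Xs := by
  rintro U V hU hV ⟨x, hxU, hx⟩ ⟨y, hyV, hy⟩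
  obtain ⟨L₁, h₁⟩ := exists_window U hU x hxU
  obtain ⟨L₂, h₂⟩ := exists_window V hV y hyV
  set L := max L₁ L₂ with hL
  have hL1 : L₁ ≤ L := le_max_left _ _
  have hL2 : L₂ ≤ L := le_max_right _ _
  refine ⟨4 * L + 1, fun n hn => ?_⟩
  classical
  let z : ℤ → Alph := fun k =>
    if |k| ≤ L then x k else if |k - n| ≤ L then y (k - n) else (false, false, false)
  have key : ∀ k, z k ≠ (false, false, false) →
      (|k| ≤ L ∧ z k = x k) ∨ (|k - n| ≤ L ∧ z k = y (k - n)) := by
    intro k hk
    by_cases h : |k| ≤ L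
    · left; exact ⟨h, by simp [z, h]⟩
    · by_cases h' : |k - n| ≤ L
      · right; exact ⟨h', by simp [z, h, h']⟩
      · exact absurd (by simp [z, h, h']) hk
  have hz : z ∈ Xs := by
    rintro p m hm ⟨hb, ha, hc⟩
    have nb := key (p - m) (by intro e; simp [e] at hb)
    have na := key p (by intro e; simp [e] at ha)
    have nc := key (p + m) (by intro e; simp [e] at hc)
    have hLn : (4 * (L : ℤ) + 1) ≤ n := by exact_mod_cast hn
    rcases nb with ⟨nb, eb⟩ | ⟨nb, eb⟩ <;> rcases na with ⟨na, ea⟩ | ⟨na, ea⟩ <;>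
      rcases nc with ⟨nc, ec⟩ | ⟨nc, ec⟩
    · exact hx p m hm ⟨by rw [← eb]; exact hb, by rw [← ea]; exact ha, by rw [← ec]; exact hc⟩
    · rw [abs_le] at nb na nc; omega
    · rw [abs_le] at nb na nc; omega
    · rw [abs_le] at nb na nc; omega
    · rw [abs_le] at nb na nc; omega
    · rw [abs_le] at nb na nc; omega
    · rw [abs_le] at nb na nc; omega
    · refine hy (p - n) m hm ⟨?_, ?_, ?_⟩
      · rw [show p - n - m = p - m - n by ring, ← eb]; exact hb
      · rw [← ea]; exact ha
      · rw [show p - n + m = p + m - n by ring, ← ec]; exact hc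
  have hzU : z ∈ U := by
    apply h₁
    intro k hk
    have : |k| ≤ (L : ℤ) := le_trans hk (by exact_mod_cast hL1)
    simp [z, this]
  have hzV : shift^[n] z ∈ V := by
    apply h₂
    intro k hk
    rw [shift_iter]
    have hk' : |k| ≤ (L : ℤ) := le_trans hk (by exact_mod_cast hL2)
    have h3 : ¬ |k + n| ≤ (L : ℤ) := by
      have hLn : (4 * (L : ℤ) + 1) ≤ n := by exact_mod_cast hn
      rw [abs_le] at hk' ⊢
      omega
    simp [z, h3, hk']
  exact ⟨shift^[n] z, ⟨z, ⟨hzU, hz⟩, rfl⟩, ⟨hzV, iter_mem n hz⟩⟩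

/-- The cellular automaton on `Xs`. -/
def τ : Xs → Xs := fun x => ⟨T x.1, T_mem x.2⟩

lemma τ_ca : IsCellularAutomaton Xs τ := by
  refine ⟨?_, ?_⟩
  · exact (T_continuous.comp continuous_subtype_val).subtype_mk _
  · intro x y h
    show T y.1 = shift (T x.1)
    rw [h, T_shift]

lemma τ_inj : Function.Injective τ := by
  intro x y h
  exact Subtype.ext (T_inj (congrArg Subtype.val h))

/-- The configuration with all three particles at the origin. -/
def pt : ℤ → Alph := fun n => if n = 0 then (true, true, true) else (false, false, false)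

lemma pt_mem : pt ∈ Xs := by
  rintro n m hm ⟨hb, ha, hc⟩
  have h0 : n = 0 := by
    by_contra h
    simp [pt, h] at ha
  have h1 : n - m = 0 := by
    by_contra h
    simp [pt, h] at hb
  omega

lemma τ_not_surj : ¬ Function.Surjective τ := by
  intro h
  obtain ⟨⟨x, hx⟩, hxp⟩ := h ⟨pt, pt_mem⟩
  have e : T x = pt := congrArg Subtype.val hxp
  have e0 := congrFun e 0
  simp only [T, pt, if_true, Prod.mk.injEq] at e0
  exact hx 0 1 le_rfl ⟨e0.2.1, e0.1, e0.2.2⟩

/-- **Main theorem.** There is a finite alphabet `A` and a topologically mixing subshift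
`X ⊆ A^ℤ` which is not surjunctive. -/
theorem result : ∃ (A : Type) (_ : Finite A) (_ : TopologicalSpace A) (_ : DiscreteTopology A)
    (X : Set (ℤ → A)), IsSubshift X ∧ IsTopMixing X ∧ ¬ IsSurjunctive X :=
  ⟨Alph, inferInstance, inferInstance, inferInstance, Xs, Xs_subshift, Xs_mixing,
    fun h => τ_not_surj (h τ τ_ca τ_inj)⟩

end Pool.Agent.Results.MP_451208_an.MixingNotSurjunctive
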